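import Pool.Agent.H58.JU.Targets

/-! Row NRM of jun_modules: the bound of the sum by the critical point condition. -/

set_option autoImplicit false

namespace Pool.Agent.H76.JU

open Pool.Agent.H58.JU Pool.Agent.H59 Pool.Agent.H48.FR Pool.Agent.H58.FL
open scoped RealInnerProductSpace Quaternion

theorem pf_NRM : T_NRM := by
  intro M W _ _ _ c c' L N t x lam ht hl hm u
  have key : ∀ z : M, (∀ v, ov z v ≤ 1 - L.p v) → Fs t x z ≤ 1 - ∑ i, t i * L.p (x i) := by
    intro z hz
    have h1 : Fs t x z ≤ ∑ i, t i * (1 - L.p (x i)) :=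
      Finset.sum_le_sum fun i _ => mul_le_mul_of_nonneg_left (hz (x i)) (ht.1 i)
    have h2 : ∑ i, t i * (1 - L.p (x i)) = 1 - ∑ i, t i * L.p (x i) := by
      have h3 : ∑ i, t i * (1 - L.p (x i)) = ∑ i, t i - ∑ i, t i * L.p (x i) := by
        rw [← Finset.sum_sub_distrib]
        exact Finset.sum_congr rfl fun i _ => by ring
      rw [h3, ht.2]
    rwa [h2] at h1
  rcases eq_or_lt_of_le (L.p_mem u).1 with h0 | h0
  · rw [← h0]
    have := key u (L.orth u h0.symm)
    linarith
  rcases eq_or_lt_of_le (L.p_mem u).2 with h1 | h1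
  · rw [h1]
    have := hm u
    linarith
  obtain ⟨y, z, h, θ, γ, hy, hγ, hc, hz, hov⟩ := L.nor u h0 h1
  have hF : ∀ φ, Fs t x (γ φ) = Real.cos φ ^ 2 * lam + Real.sin φ ^ 2 * Fs t x z +
      2 * (Real.sin φ * Real.cos φ) * ∑ i, t i * h (x i) := by
    intro φ
    rw [← hl y hy]
    unfold Fs
    rw [Finset.mul_sum, Finset.mul_sum, Finset.mul_sum, ← Finset.sum_add_distrib,
      ← Finset.sum_add_distrib]
    refine Finset.sum_congr rfl fun i _ => ?_
    rw [hov φ (x i)]
    ring
  set H : ℝ := ∑ i, t i * h (x i) with hH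
  set A : ℝ := Fs t x z - lam with hA
  have hT : ∀ T : ℝ, T ^ 2 * A + 2 * T * H ≤ 0 := by
    intro T
    have hcp := Real.cos_arctan_pos T
    have hs : Real.sin (Real.arctan T) = T * Real.cos (Real.arctan T) := by
      have := Real.tan_arctan T
      rw [Real.tan_eq_sin_div_cos, div_eq_iff hcp.ne'] at this
      exact this
    have h2 := hm (γ (Real.arctan T))
    rw [hF, hs] at h2
    have h3 := Real.sin_sq_add_cos_sq (Real.arctan T)
    rw [hs] at h3
    set C := Real.cos (Real.arctan T) with hC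
    have h4 : C ^ 2 * (T ^ 2 * A + 2 * T * H) ≤ 0 := by
      have h5 : C ^ 2 * (T ^ 2 * A + 2 * T * H) = C ^ 2 * lam + (T * C) ^ 2 * Fs t x z +
          2 * (T * C * C) * H - ((T * C) ^ 2 + C ^ 2) * lam := by
        rw [hA]
        ring
      rw [h5, h3]
      linarith
    by_contra h6
    push Not at h6
    have := mul_pos (pow_pos hcp 2) h6
    linarith
  have hH0 : H = 0 := by
    by_contra hne
    have hpos : 0 < H ^ 2 := by positivity
    have hA1 : 0 < 1 + |A| := by positivity
    have h2 := hT (H / (1 + |A|))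
    have h3 : (H / (1 + |A|)) ^ 2 * A + 2 * (H / (1 + |A|)) * H =
        H ^ 2 / (1 + |A|) * (A / (1 + |A|) + 2) := by
      field_simp
    rw [h3] at h2
    have h4 : -1 ≤ A / (1 + |A|) := by
      rw [le_div_iff₀ hA1]
      have := neg_abs_le A
      linarith
    have h5 : 0 < H ^ 2 / (1 + |A|) * (A / (1 + |A|) + 2) :=
      mul_pos (div_pos hpos hA1) (by linarith)
    linarith
  have hFu := hF θ
  rw [hγ, hH0, mul_zero, add_zero, hc] at hFu
  have hs2 : Real.sin θ ^ 2 = 1 - L.p u := by
    have := Real.sin_sq_add_cos_sq θ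
    linarith
  rw [hFu, hs2]
  have := mul_le_mul_of_nonneg_left (key z hz) (sub_nonneg.2 (L.p_mem u).2)
  linarith

end Pool.Agent.H76.JU
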